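import Pool.Agent.helper1.UN.SpecU

set_option autoImplicit false

open NumberField Complex MeasureTheory NumberField.Units NumberField.Units.dirichletUnitTheorem

open scoped Classical

namespace Pool.Agent.UN

/-- a representative of a class of units modulo torsion -/
noncomputable def VUT_rep {K : Type} [Field K] [NumberField K] (x : (𝓞 K)ˣ ⧸ (torsion K)) : (𝓞 K)ˣ :=
  Quotient.out x

theorem VUT_mk {K : Type} [Field K] [NumberField K] (x : (𝓞 K)ˣ ⧸ (torsion K)) :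
    (QuotientGroup.mk (VUT_rep x) : (𝓞 K)ˣ ⧸ (torsion K)) = x :=
  Quotient.out_eq x

theorem VUT_mem {K : Type} [Field K] [NumberField K] (u : (𝓞 K)ˣ) :
    (VUT_rep (QuotientGroup.mk u : (𝓞 K)ˣ ⧸ (torsion K)))⁻¹ * u ∈ torsion K := by
  rw [← QuotientGroup.eq]
  exact VUT_mk _

theorem VUT_mk_mul {K : Type} [Field K] [NumberField K] (x : (𝓞 K)ˣ ⧸ (torsion K)) (ζ : torsion K) :
    (QuotientGroup.mk (VUT_rep x * (ζ : (𝓞 K)ˣ)) : (𝓞 K)ˣ ⧸ (torsion K)) = x := by
  have h1 : (QuotientGroup.mk (VUT_rep x * (ζ : (𝓞 K)ˣ)) : (𝓞 K)ˣ ⧸ (torsion K)) =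
      QuotientGroup.mk (VUT_rep x) := by
    symm
    rw [QuotientGroup.eq]
    have h2 : (VUT_rep x)⁻¹ * (VUT_rep x * (ζ : (𝓞 K)ˣ)) = (ζ : (𝓞 K)ˣ) := by group
    rw [h2]
    exact ζ.2
  rw [h1]
  exact VUT_mk x

theorem VUT : VUT_stmt := by
  intro K _ _
  refine ⟨{ toFun := fun u => (logEmbeddingEquiv K (Additive.ofMul (QuotientGroup.mk u : (𝓞 K)ˣ ⧸ (torsion K))),
              ⟨(VUT_rep (QuotientGroup.mk u : (𝓞 K)ˣ ⧸ (torsion K)))⁻¹ * u, VUT_mem u⟩)
            invFun := fun z => VUT_rep (((logEmbeddingEquiv K).symm z.1).toMul) * (z.2 : (𝓞 K)ˣ)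
            left_inv := ?_
            right_inv := ?_ }, ?_⟩
  · intro u
    simp only [LinearEquiv.symm_apply_apply, toMul_ofMul]
    group
  · rintro ⟨v, ζ⟩
    have h1 : (QuotientGroup.mk (VUT_rep (((logEmbeddingEquiv K).symm v).toMul) * (ζ : (𝓞 K)ˣ)) :
        (𝓞 K)ˣ ⧸ (torsion K)) = ((logEmbeddingEquiv K).symm v).toMul := VUT_mk_mul _ _
    refine Prod.ext ?_ ?_
    · simp only
      rw [h1, ofMul_toMul, LinearEquiv.apply_symm_apply]
    · apply Subtype.ext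
      simp only
      rw [h1]
      group
  · intro u
    change ((logEmbeddingEquiv K (Additive.ofMul (QuotientGroup.mk u : (𝓞 K)ˣ ⧸ (torsion K))) :
      unitLattice K) : logSpace K) = lu u
    rw [logEmbeddingEquiv_apply]
    rfl

end Pool.Agent.UN
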